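import Pool.Agent.Lib.MP_2bf17e_pr.Range

open Pool.Agent.Lib.MP_2bf17e_pr Filter Topology

namespace Pool.Agent.Results.MP_2bf17e_pr.MeanFieldFails

/-- The mean-field lower bound fails for `H = K_{2,l}`, `l ≥ 3`, and `p_n = n^{-θ}` with
`2/l < θ < 1/2 + 1/l`: the graph is strictly balanced, the sequence is in the range of Q1, and for
suitable `ε ∈ (0,1)`, `δ > 0` and all large `n` the left inequality of Q1 is false. -/
theorem result (l : ℕ) (hl : 3 ≤ l) (θ : ℝ) (h1 : 2 / (l : ℝ) < θ)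
    (h2 : θ < 1 / 2 + 1 / (l : ℝ)) :
    StrictlyBalanced (completeBipartiteGraph (Fin 2) (Fin l)) ∧
    ∃ ε : ℝ, 0 < ε ∧ ε < 1 ∧ ∃ δ : ℝ, 0 < δ ∧
      ∀ p : ℕ → ℝ, (∀ n, 0 < p n ∧ p n < 1) → (∀ᶠ n : ℕ in atTop, p n = (n : ℝ) ^ (-θ)) →
        InRange (completeBipartiteGraph (Fin 2) (Fin l)) p ∧
        ∀ᶠ n : ℕ in atTop,
          0 < upperTail (completeBipartiteGraph (Fin 2) (Fin l)) n (p n) δ ∧
          (admissible (completeBipartiteGraph (Fin 2) (Fin l)) n (p n) (δ * (1 - ε))).Nonempty ∧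
          -Real.log (upperTail (completeBipartiteGraph (Fin 2) (Fin l)) n (p n) δ) <
            (1 - ε) * Psi (completeBipartiteGraph (Fin 2) (Fin l)) n (p n) (δ * (1 - ε)) := by
  refine ⟨strictlyBalanced_KK (by omega), ?_⟩
  obtain ⟨ε, hε0, hε1, δ, hδ, hmain⟩ := main_eventually hl h1 h2
  refine ⟨ε, hε0, hε1, δ, hδ, fun p hp hpe => ⟨inRange_KK hl h1 h2 hp hpe, ?_⟩⟩
  filter_upwards [hmain, hpe] with n hn hpn
  rw [hpn]
  exact hn

end Pool.Agent.Results.MP_2bf17e_pr.MeanFieldFails
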